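import Pool.Agent.H35.UY.Pbg
import Pool.Agent.H93.BX.Blz
import Pool.Agent.H70.UX.Stp4

/-!
# H35-UY-APU: `APu3 p` for every prime (MP_b39724_nt, UBX)

`ux2u : UX2 p`, `apu3u : APu3 p`.
-/

set_option autoImplicit false
set_option linter.dupNamespace false

noncomputable section

namespace H35.UY

/-- THE INPUT of UBX for every prime -/
theorem ux2u {p : ℕ} (hp : p.Prime) : H70.UX.UX2 p :=
  H77.INP.inp hp (H93.BX.pbl hp) (pbg hp)

/-- THE GROUP LEVEL of UBX for every prime -/
theorem apu3u {p : ℕ} (hp : p.Prime) : H51.F3.APu3 p := H70.UX.apu3 hp (ux2u hp)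

end H35.UY
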