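import Pool.Agent.H70.UY.Core
import Pool.Agent.H62.UY.One
import Pool.Agent.H93.BY.Blg
import Pool.Agent.H77.INP.Inp

/-!
# H35-UY-PBG: the second input `PBG p` of UBX for every prime (MP_b39724_nt)

`pbg`: from `H70.UX.bgb_core` (`n ≥ 1`), `H62.UY.pone` (`n = 0`) and the box lemma `H93.BY.blg'`.
-/

set_option autoImplicit false
set_option linter.dupNamespace false

open scoped NumberField commutatorElement
open IsDedekindDomain
open scoped Classical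

noncomputable section

namespace H35.UY

open H38.ML H63.MA H38.BB H38.BG H57.PC H57.BRA H77.WD H77.WE H77.PC3 H35.CF H35.UB H48.UX H77.UY
  H42.BX H62.BL H86.BX H93.BY H77.INP H70.UX H62.UY

variable {K : Type} [Field K] [NumberField K] {Ω : Type} [Field Ω] [Algebra K Ω]
  {p : ℕ} {ζ : K} {D : RD0 K p ζ}

theorem brk_nk {P : Type} [Group P] (N : Subgroup P) [N.Normal] (l : List P) :
    ∀ n : ℕ, l.length = n + 1 → (∀ a ∈ l, a ∈ N) → brk l ∈ Nk N n := by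
  induction l with
  | nil => exact fun n h => absurd h (by simp)
  | cons a l ih =>
    intro n h1 h2
    have ha : a ∈ N := h2 a List.mem_cons_self
    cases l with
    | nil =>
      have h3 : n = 0 := by simpa using h1.symm
      subst h3
      exact ha
    | cons b l =>
      obtain _ | n := n
      · simp at h1
      · have h4 := ih n (by simpa using h1) fun c hc => h2 c (List.mem_cons_of_mem _ hc)
        have h5 : ⁅brk (b :: l), a⁆ ∈ Nk N (n + 1) := Subgroup.commutator_mem_commutator h4 ha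
        have h6 := inv_mem h5
        rw [commutatorElement_inv, commutatorElement_def] at h6
        exact h6

/-- nothing to prove if the last layer is trivial -/
theorem bgb_triv {P : Type} [Group P] [Fintype P] {L : LDs D Ω} {Fr : FR L} {A : GS D Ω}
    {W : Pl K → FW A} {Zw E : Finset (Pl K)} {N : Subgroup P} [N.Normal] {n : ℕ}
    (hn : Nk N n = ⊥) {C₁ A₀ ε Y : ℝ} (hY : 1 ≤ Y) : BGb Fr A W Zw E N n C₁ A₀ ε Y := by
  intro gk fk hgk Gk hG1 hG2 hG3 ι I X hI1 hI2 hI3 hI4 hI5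
  have hI : I = ∅ := by
    rw [Finset.eq_empty_iff_forall_notMem]
    intro i hi
    obtain ⟨hch, -, v, hv, u, hu⟩ := hI3 i hi
    have h1 : brk (List.ofFn fun j => u j * gk j * (u j)⁻¹) ∈ Nk N n := by
      refine brk_nk N _ n (by rw [List.length_ofFn]) ?_
      intro a ha
      rw [List.mem_ofFn] at ha
      obtain ⟨j, rfl⟩ := ha
      exact ‹N.Normal›.conj_mem _ (hgk j).1 _
    rw [hn, Subgroup.mem_bot] at h1
    have h2 := hch.add v hv 1 (one_mem _) 1 (one_mem _)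
    rw [mul_one] at h2
    exact hu (by rw [h1]; simpa using h2)
  rw [hI, Finset.sum_empty]
  exact Real.rpow_nonneg (Real.log_nonneg hY) _

/-- THE SECOND INPUT of UBX -/
theorem pbg {p : ℕ} (hp : p.Prime) : PBG p := by
  intro κ m
  obtain ⟨k₁, hk₁⟩ := pone hp κ m
  obtain ⟨N₀, hN₀⟩ := blg' hp (κ + 2) (cM p κ m)
  obtain ⟨Mx₀, hMx⟩ : ∃ M, M = H93.BX.Mx (p ^ (κ + 2)) (cM p κ m) := ⟨_, rfl⟩
  refine ⟨k₁ + κ + 3 * m + 3 + Mx₀, fun k hk => ?_⟩
  obtain ⟨n₁, hn₁⟩ := hk₁ k (by omega)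
  refine ⟨n₁ + N₀, fun n hn K _ ζ hζ z hz hzζ D => ?_⟩
  have hMk : H93.BX.Mx (p ^ (κ + 2)) (cM p κ m) ≤ p ^ k := by
    rw [← hMx]
    calc Mx₀ ≤ k := by omega
      _ ≤ 2 ^ k := Nat.lt_two_pow_self.le
      _ ≤ p ^ k := Nat.pow_le_pow_left hp.two_le k
  intro A Q B C₁ A₀ ε hε
  obtain ⟨c₁, hc₁⟩ := exists_nat_ge C₁
  obtain ⟨a₁, ha₁⟩ := exists_nat_ge (A₀ + 1)
  obtain ⟨M₁, G₁, hMG₁⟩ := hn₁ n (by omega) K ζ hζ z hz hzζ D A Q B C₁ A₀ ε hε
  refine ⟨max M₁ (H93.BX.Mx (p ^ (κ + 2)) (cM p κ m) ^ (2 ^ cM p κ m)),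
    max G₁ (c₁ * (3 * cM p κ m + 4)), fun C' => ?_⟩
  obtain ⟨Y₁, hY₁3, hY₁⟩ := hMG₁ C'
  obtain ⟨Y₂, hY₂3, hY₂⟩ := blg_y (hN₀ n (by omega) K ζ hζ z hz hzζ D.toRD0 Q A B A.g) c₁ a₁ C' ε hε
  refine ⟨max Y₁ (max Y₂ (Real.exp (cN p m))), hY₁3.trans (le_max_left _ _),
    fun Y hY L Fr Zw l W Yw hF P _ _ hPm hPκ N _ n' hn' hN E hE => ?_⟩
  have hYY₁ : Y₁ ≤ Y := (le_max_left _ _).trans hY
  have hYY₂ : Y₂ ≤ Y := ((le_max_left _ _).trans (le_max_right _ _)).trans hY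
  have hYN : (cN p m : ℝ) ≤ Real.log Y := by
    rw [Real.le_log_iff_exp_le (by linarith)]
    exact ((le_max_right _ _).trans (le_max_right _ _)).trans hY
  have hY1 : 1 ≤ Y := by linarith
  obtain _ | j := n'
  · exact hY₁ Y hYY₁ L Fr Zw l W Yw ⟨hF.nl, glp_mono hF.gl (le_max_left _ _) (le_max_left _ _) hY1,
      hF.out, hF.all, hF.nd, hF.ml, hF.rel, hF.crt, hF.com, hF.loc⟩ P hPm hPκ N hn' hN E hE
  · by_cases hne : Nk N (j + 1) = ⊥
    · exact bgb_triv hne hY1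
    · exact bgb_core hp hζ (by omega) (by omega) hMk hc₁ ha₁ (hY₁3.trans hYY₁) hYN
        ⟨hF.nl, glp_mono hF.gl (le_max_right _ _) (le_max_right _ _) hY1,
          hF.out, hF.all, hF.nd, hF.ml, hF.rel, hF.crt, hF.com, hF.loc⟩ (hY₂ Y hYY₂) hPm hPκ hn'
        hne hN hE

end H35.UY
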